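import Pool.Agent.Q161.ESM.Cor

/-!
# The ranks of ALL quadratic twists of elliptic curves without rational 2-torsion: all exponential
# moments are bounded

Let `E_i : y² = x³ + a_i x + b_i`, `i = 1, …, r`, be elliptic curves over `ℚ` without rational points of
order two (`100%` of all elliptic curves over `ℚ`), `E_(i,D) : y² = x³ + a_i D² x + b_i D³` their quadratic
twists, `D` squarefree, and `R(D)` the sum of the ranks of the `E_(i,D)`, the rank of the twist by `D` of
the abelian variety `E_1 × … × E_r`.  For every `k` there is a constant `C` such that for all `X ≥ 1`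

  `∑_{|D| ≤ X} 2^(k R(D)) ≤ C X`.

So the number of the twists with `R(D) ≥ n` is `O_k(2^(-k n) X)` for every `k`: it decreases faster than
every exponential function of `n`, uniformly in `X`.  A set of `δ X` twists has average rank at most
`(log₂ (C / δ)) / k`, for every `k`.

The proof (project ESM, `Pool/Agent/Q161/ESM`) bounds the joint moments of the orders of the 2-Selmer
groups.
-/

set_option autoImplicit false

namespace Pool.Agent.Results.MP_157626_nt.AllMomentsAllTwists

open Finset Pool.Agent.Q161.EA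

/-- the sum of the ranks of the twists by `D` of the curves `y² = x³ + a_i x + b_i` -/
noncomputable def rankSum {r : ℕ} (a b : Fin r → ℤ) (D : ℤ) : ℕ := ∑ i, rank (a i) (b i) D

/-- Let `y² = x³ + a_i x + b_i`, `a_i, b_i ∈ ℤ`, `1 ≤ i ≤ r`, be without rational points of order two, and
`R(D)` the sum of the ranks of the twists of these curves by `D`.  For every `k` there is a `C` such that for
all `X ≥ 1`, `D` running over the squarefree integers, `|D| ≤ X`: (1) `∑ 2^(k R(D)) ≤ C X`; (2) for all `n` the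
number of the `D` with `R(D) ≥ n` is at most `C X / 2^(k n)`; (3) for any nonempty set `S` of these `D`
`k ∑_(D ∈ S) R(D) ≤ |S| log₂ (C X / |S|)`; (4) `∑ R(D)^k ≤ C X`. -/
theorem result (r : ℕ) (a b : Fin r → ℤ) (h : ∀ i, ∀ x : ℚ, x ^ 3 + a i * x + b i ≠ 0) (k : ℕ) :
    ∃ C : ℝ, 0 < C ∧ ∀ X : ℝ, 1 ≤ X →
      (∑ D ∈ twists X, (2 : ℝ) ^ (k * rankSum a b D) ≤ C * X) ∧
      (∀ n : ℕ, (((twists X).filter (fun D => n ≤ rankSum a b D)).card : ℝ) ≤
        C * X / 2 ^ (k * n)) ∧
      (∀ S : Finset ℤ, S ⊆ twists X → S.Nonempty →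
        k * ∑ D ∈ S, (rankSum a b D : ℝ) ≤ S.card * Real.logb 2 (C * X / S.card)) ∧
      ∑ D ∈ twists X, (rankSum a b D : ℝ) ^ k ≤ C * X := by
  obtain ⟨C, hC, h2⟩ := Pool.Agent.Q161.ESM.moments a b h k
  refine ⟨C, hC, fun X hX => ?_⟩
  have h3 : ∑ D ∈ twists X, (2 : ℝ) ^ (k * rankSum a b D) ≤ C * X := by
    refine le_trans (sum_le_sum fun D hD => ?_) (h2 X hX)
    have e1 : (2 : ℝ) ^ (k * rankSum a b D) = ∏ i, ((2 : ℝ) ^ rank (a i) (b i) D) ^ k := by
      rw [prod_pow, prod_pow_eq_pow_sum, ← pow_mul, mul_comm]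
      rfl
    rw [e1]
    refine prod_le_prod (fun i _ => by positivity) fun i _ => ?_
    refine pow_le_pow_left₀ (by positivity) ?_ k
    have h4 : 1 ≤ Nat.card (ShaTwo (a i) (b i) D) :=
      shaTwo_pos _ _ _ (Pool.Agent.Q161.ESM.fin_sha (h i) (squarefree_of_mem hD))
    have h5 : 2 ^ rank (a i) (b i) D ≤ 2 ^ rank (a i) (b i) D * Nat.card (ShaTwo (a i) (b i) D) :=
      Nat.le_mul_of_pos_right _ h4
    exact_mod_cast h5
  have hS : ∀ S : Finset ℤ, S ⊆ twists X → ∑ D ∈ S, (2 : ℝ) ^ (k * rankSum a b D) ≤ C * X :=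
    fun S hS => le_trans (sum_le_sum_of_subset_of_nonneg hS (fun _ _ _ => by positivity)) h3
  refine ⟨h3, fun n => ?_, fun S hSX hne => ?_, ?_⟩
  · rw [le_div_iff₀ (by positivity)]
    refine le_trans ?_ (hS ((twists X).filter (fun D => n ≤ rankSum a b D)) (filter_subset _ _))
    rw [← nsmul_eq_mul]
    refine card_nsmul_le_sum _ _ _ fun D hD => ?_
    exact pow_le_pow_right₀ one_le_two (Nat.mul_le_mul_left k (mem_filter.1 hD).2)
  · have h6 := jensen S (fun D => k * rankSum a b D) hne _ (hS S hSX)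
    rw [mul_sum]
    refine le_trans (le_of_eq (sum_congr rfl fun D _ => ?_)) h6
    push_cast
    rfl
  · refine le_trans (sum_le_sum fun D _ => ?_) h3
    rw [mul_comm k, pow_mul]
    refine pow_le_pow_left₀ (Nat.cast_nonneg _) ?_ k
    exact_mod_cast (Nat.lt_two_pow_self (n := rankSum a b D)).le

end Pool.Agent.Results.MP_157626_nt.AllMomentsAllTwists
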