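import Pool.Agent.Q44.LD.Fld3
import Pool.Agent.Q44.LD.FactsT
import Pool.Agent.Q44.JQ.X.MomC

/-!
# The ranks of all the twists by the divisors of almost every integer, and the ranks of one curve over
# the fields generated by the square roots of all its prime divisors

Let `E` be an elliptic curve `y ^ 2 = (x - a 0) (x - a 1) (x - a 2)` over `ℚ` with different integers
`a i` of sum 0 (every elliptic curve over `ℚ` with full rational 2-torsion has such an equation) which has
no rational cyclic subgroup of order 4 (`IsModel`; the quadratic twists of `E` have the same property). For an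
integer `D ≠ 0` let `#Sel_2(E ^ (D)) = 2 ^ (2 + r(E, D))` for the quadratic twist `E ^ (D)`; then
`2 ^ rank #Ш[2] = 2 ^ r(E, D)`.

**Parity** (second part). If `D`, `D'` are squarefree integers of different signs and `D D'` is a square in
`ℚ_l` for `l = 2` and the primes of bad reduction then `r(E, D) + r(E, D')` is odd.

**The theorem** (last part). There is *one* set `𝒩` of positive integers of natural density one with the
following property. For *all* these curves `E`, *all* `M ≥ 1`, all `C ≥ 0` and `ε > 0` all sufficiently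
large `N` in `𝒩` satisfy, where `d` runs over the `2 · 2 ^ ω(M N)` squarefree divisors of `M N` of both
signs:

* exactly half of the numbers `r(E, d)` are even;
* for *every* function `f` with `|f(e)| ≤ C ^ (1 + e)` the mean of `f(r(E, d))` differs by at most `ε` from
  the mean of `f` for the law `p(e) = (β / 2) 2 ^ e / ((2 - 1) (2 ^ 2 - 1) ⋯ (2 ^ e - 1))`,
  `β = ∏_{i ≥ 0} (1 - 2 ^ (- 2 i - 1))`; in particular the mean of `2 ^ (j r(E, d))` tends to
  `∏_{i ≤ j} (1 + 2 ^ i)` (third part); over the *positive* divisors the law is the mixture of the laws `p`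
  conditioned by the parity according to the shares of the even and of the odd numbers;
* the average rank of the twists is at most 1.2646, and at least 20.97 percent of them have rank 0 and no
  element of order 2 in `Ш`;
* *no* divisor is exceptional: `r(E, d) ≤ ε ω(N)` for *all* the divisors `d`, whereas the trivial bound
  is about `2 ω(d)`;
* for the field `K = ℚ(√p : p ∣ M N)` of degree `2 ^ ω(M N)`:
  `rank E(K) + corank Ш(E / K)[2 ^ ∞] ≤ 1.3251 [K : ℚ]`;
* for `K = ℚ(√(-1), √p : p ∣ M N)` of degree `2 · 2 ^ ω(M N)` (for even `M` this is the largest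
  abelian extension of exponent 2 which is unramified outside `M N` and infinity):
  `rank E(K) + corank Ш(E / K)[2 ^ ∞] ≤ 1.2646 [K : ℚ]`;
* for *every* field `F` generated by the square roots of finitely many independent integers with all prime
  factors among those of `M N` (that is, for all subfields of `K`):
  `rank E(F) + corank Ш(E / F)[2 ^ ∞] ≤ ε ω(N) [F : ℚ]`.

So for every single curve of this kind the ranks over the fields of unbounded degree generated by the
square roots of all the prime divisors of 100 percent of all integers are bounded in terms of the degree by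
an absolute constant, and the limit law of Heath-Brown, Poonen and Rains for the 2-Selmer groups, known for
the mean over all twists, holds inside the finite set of the divisors of 100 percent of the individual
integers. The mean 1.2645... of the law `p` is the natural limit of a descent by 2.

Idea of the proof: the second moment method for the tables of quadratic residue symbols gives the laws inside
the classes of divisors with given signs and local behaviour. The change of the sign changes the parity: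
the product of the local images is a maximal singular space of a quadratic space; when the sign of the twist
changes only the real component of this space changes, and the intersection of the two spaces has index 2.
As the divisors are equidistributed in the classes, both parities have the same weight.
-/

set_option autoImplicit false
set_option linter.all false

namespace Pool.Agent.Results.MP_157626_nt.DivisorsOfAlmostEveryInteger

open Filter Topology
open Pool.Agent.Y667.SX (Sel2H)
open scoped Classical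

/-! ### The curves -/

/-- The curve `y ^ 2 = (x - a 0) (x - a 1) (x - a 2)` over the field `F`, for `a 0 + a 1 + a 2 = 0`. -/
def curveOver (F : Type) [Field F] (a : Fin 3 → ℤ) : WeierstrassCurve F :=
  ⟨0, 0, 0, ((a 0 * a 1 + a 0 * a 2 + a 1 * a 2 : ℤ) : F), ((-(a 0 * a 1 * a 2) : ℤ) : F)⟩

/-- The curve over the rationals. -/
def curve (a : Fin 3 → ℤ) : WeierstrassCurve ℚ := curveOver ℚ a

/-- The roots `D a i` of the quadratic twist by `D`. -/
def twist (D : ℤ) (a : Fin 3 → ℤ) : Fin 3 → ℤ := fun i => D * a i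

/-- The three roots are different, their sum is 0, and the product of the differences of one root with the
two others is not a square: the curve has no rational cyclic subgroup of order 4. -/
structure IsModel (a : Fin 3 → ℤ) : Prop where
  distinct : Function.Injective a
  sum : a 0 + a 1 + a 2 = 0
  noCyclicFour : ∀ i j l, i ≠ j → i ≠ l → j ≠ l → ∀ s : ℤ, (a i - a j) * (a i - a l) ≠ s ^ 2

/-- A finite set of primes which contains 2 and the prime divisors of the differences of the roots. -/
structure IsBad (S : Finset ℕ) (a : Fin 3 → ℤ) : Prop where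
  prime : ∀ l ∈ S, l.Prime
  two : 2 ∈ S
  bad : ∀ i j, i ≠ j → ∀ l : ℕ, l.Prime → (l : ℤ) ∣ a i - a j → l ∈ S

/-- The number `r` in `#Sel_2 = 2 ^ (2 + r)`. -/
noncomputable def selmerRank (W : WeierstrassCurve ℚ) : ℕ := Nat.log 2 (Nat.card (Sel2H W)) - 2

/-- The number `r` for the twist by `D`. -/
noncomputable def r (a : Fin 3 → ℤ) (D : ℤ) : ℕ := selmerRank (curve (twist D a))

/-! ### The laws -/

/-- The infinite product of the numbers `1 - 2 ^ (- 2 i - 1)`, `i ≥ 0`. -/
noncomputable def beta : ℝ := ∏' i : ℕ, (1 - (1 / 2 : ℝ) ^ (2 * i + 1))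

/-- The probability of `e` in the law `p`. -/
noncomputable def law (e : ℕ) : ℝ :=
  beta / 2 * (2 ^ e / ∏ i ∈ Finset.range e, ((2 : ℝ) ^ (i + 1) - 1))

/-- The probability of `e` in the law `p` conditioned by the parity `c`. -/
noncomputable def parityLaw (c : ZMod 2) (e : ℕ) : ℝ := if (e : ZMod 2) = c then 2 * law e else 0

/-! ### The divisors -/

/-- The squarefree divisors of `n`, positive and negative. -/
def SignedDivisors (n : ℕ) : Set ℤ := {d | Squarefree d ∧ d ∣ (n : ℤ)}

/-- The positive squarefree divisors of `n`. -/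
def PositiveDivisors (n : ℕ) : Set ℤ := {d | 0 < d ∧ Squarefree d ∧ d ∣ (n : ℤ)}

/-- The prime divisors of `n`. -/
def PrimeDivisors (n : ℕ) : Set ℤ := {b | ∃ p : ℕ, p.Prime ∧ p ∣ n ∧ b = p}

/-- The mean of `f` over a finite set. -/
noncomputable def mean (A : Set ℤ) (f : ℤ → ℝ) : ℝ := (∑ᶠ t ∈ A, f t) / A.ncard

/-- The share of the elements of a finite set with the property `P`. -/
noncomputable def share (A : Set ℤ) (P : ℤ → Prop) : ℝ := ({d ∈ A | P d}.ncard : ℝ) / A.ncard

/-- The set of integers has natural density one. -/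
def DensityOne (𝒩 : ℕ → Prop) : Prop :=
  Tendsto (fun X : ℕ => (Nat.card {N : ℕ // 1 ≤ N ∧ N ≤ X ∧ 𝒩 N} : ℝ) / X) atTop (𝓝 1)

/-- The number field `F` is generated by square roots of the elements of `A`. -/
def GeneratedBy (F : Type) [Field F] [NumberField F] (A : Set ℤ) : Prop :=
  ∃ x : ℤ → F, (∀ b ∈ A, x b ^ 2 = (b : F)) ∧ IntermediateField.adjoin ℚ (x '' A) = ⊤

/-- The number field `F` is generated by square roots of the integers `t i`. -/
def Generated (F : Type) [Field F] [NumberField F] {n : ℕ} (t : Fin n → ℤ) : Prop :=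
  ∃ x : Fin n → F, (∀ i, x i ^ 2 = (t i : F)) ∧ IntermediateField.adjoin ℚ (Set.range x) = ⊤

/-- The integers `t i` are independent modulo squares. -/
def Independent {n : ℕ} (t : Fin n → ℤ) : Prop :=
  ∀ T : Finset (Fin n), T.Nonempty → ¬ IsSquare (∏ i ∈ T, t i)

/-! ### Comparison with the definitions of the proof -/

section comparison

open Q44.LD

theorem law_eq : law = Pool.Agent.Q269.SL.law2 := by
  funext e
  rw [Pool.Agent.Q269.SL.law2_eq]
  rfl

theorem parity_eq (c : ZMod 2) (e : ℕ) : parityLaw c e = Q44.JQ.lawc c e := by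
  unfold parityLaw Q44.JQ.lawc
  rw [law_eq]

theorem r_eq (a : Fin 3 → ℤ) (D : ℤ) : r a D = wr a D := rfl

theorem mdl {a : Fin 3 → ℤ} (h : IsModel a) : Mdl a := ⟨h.distinct, h.sum, h.noCyclicFour⟩

theorem vone {a : Fin 3 → ℤ} (h : IsModel a) {S : Finset ℕ} (hS : IsBad S a) : Vone a S :=
  ⟨h.distinct, h.sum, h.noCyclicFour, hS.prime, hS.two, hS.bad⟩

theorem signed_eq {n : ℕ} (hn : n ≠ 0) : SignedDivisors n = (sd (rad n) : Finset ℤ) := by
  ext d
  rw [Finset.mem_coe, mem_sd (rad_pos n).ne']
  constructor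
  · rintro ⟨h1, h2⟩
    rw [← Int.natAbs_dvd, Int.natCast_dvd_natCast]
    exact (dvd_rad hn (Int.squarefree_natAbs.2 h1)).2 (Int.natCast_dvd_natCast.1
      (Int.natAbs_dvd.2 h2))
  · intro h
    exact ⟨(Int.squarefree_natCast.2 (rad_sq n)).squarefree_of_dvd h,
      h.trans (Int.natCast_dvd_natCast.2 (rad_dvd n))⟩

theorem positive_eq {n : ℕ} (hn : n ≠ 0) : PositiveDivisors n =
    ((rad n).divisors.image (fun d : ℕ => (d : ℤ)) : Finset ℤ) := by
  ext d
  rw [Finset.mem_coe, Finset.mem_image]
  constructor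
  · rintro ⟨h0, h1, h2⟩
    refine ⟨d.natAbs, Nat.mem_divisors.2 ⟨?_, (rad_pos n).ne'⟩, Int.natAbs_of_nonneg h0.le⟩
    exact (dvd_rad hn (Int.squarefree_natAbs.2 h1)).2 (Int.natCast_dvd_natCast.1
      (Int.natAbs_dvd.2 h2))
  · rintro ⟨d, hd, rfl⟩
    have h1 := Nat.dvd_of_mem_divisors hd
    refine ⟨by exact_mod_cast Nat.pos_of_mem_divisors hd,
      Int.squarefree_natCast.2 ((rad_sq n).squarefree_of_dvd h1),
      Int.natCast_dvd_natCast.2 (h1.trans (rad_dvd n))⟩

theorem prime_eq {n : ℕ} (hn : n ≠ 0) : PrimeDivisors n = (Pz (rad n) : Finset ℤ) := by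
  ext b
  rw [Finset.mem_coe, mem_Pz (rad_pos n).ne']
  refine exists_congr fun p => and_congr_right fun hp => and_congr_left fun _ => ?_
  exact (dvd_rad hn hp.squarefree).symm

theorem mean_coe (A : Finset ℤ) (f : ℤ → ℝ) : mean (A : Set ℤ) f = (∑ d ∈ A, f d) / A.card := by
  unfold mean
  rw [finsum_mem_coe_finset, Set.ncard_coe_finset]

theorem ncard_coe (A : Finset ℤ) (P : ℤ → Prop) [DecidablePred P] :
    {d ∈ (A : Set ℤ) | P d}.ncard = (A.filter P).card := by
  rw [← Set.ncard_coe_finset, Finset.coe_filter]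
  rfl

end comparison

open Pool.Agent.TH841.NF.D (HasDiv rk crk) in
theorem result :
    (∀ a : Fin 3 → ℤ, IsModel a → ∀ D : ℤ, D ≠ 0 → ∀ W : WeierstrassCurve ℚ, W = curve (twist D a) →
      Finite (Sel2H W) ∧ Nat.card (Sel2H W) = 2 ^ (2 + r a D) ∧
      Finite {x : Pool.Agent.TH841.SH.D.Sha W // x + x = 0} ∧
      2 ^ Module.finrank ℤ W.toAffine.Point *
        Nat.card {x : Pool.Agent.TH841.SH.D.Sha W // x + x = 0} = 2 ^ r a D) ∧
    (∀ (a : Fin 3 → ℤ) (S : Finset ℕ), IsModel a → IsBad S a →
      ∀ D D' : ℤ, Squarefree D → Squarefree D' → D * D' < 0 →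
        (∀ (l : ℕ) [Fact l.Prime], l ∈ S → IsSquare ((D * D' : ℤ) : ℚ_[l])) →
        Odd (r a D + r a D')) ∧
    (HasSum law 1 ∧ 0.2097 < law 0 ∧ ∑' e : ℕ, law e * e < 1.26455 ∧
      ∀ j : ℕ, ∑' e : ℕ, law e * 2 ^ (j * e) = ∏ i ∈ Finset.range j, (1 + (2 : ℝ) ^ (i + 1))) ∧
    ∃ 𝒩 : ℕ → Prop, DensityOne 𝒩 ∧ ∀ a : Fin 3 → ℤ, IsModel a → ∀ M : ℕ, M ≠ 0 →
      ∀ C ε : ℝ, 0 ≤ C → 0 < ε → ∀ᶠ N : ℕ in atTop, 𝒩 N →
        (2 * {d ∈ SignedDivisors (M * N) | Even (r a d)}.ncard = (SignedDivisors (M * N)).ncard) ∧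
        (∀ f : ℕ → ℝ, (∀ e, |f e| ≤ C ^ (1 + e)) →
          |mean (SignedDivisors (M * N)) (fun d => f (r a d)) - ∑' e : ℕ, f e * law e| ≤ ε) ∧
        (∀ f : ℕ → ℝ, (∀ e, |f e| ≤ C ^ (1 + e)) →
          |mean (PositiveDivisors (M * N)) (fun d => f (r a d)) -
            (share (PositiveDivisors (M * N)) (fun d => Even (r a d)) *
              (∑' e : ℕ, f e * parityLaw 0 e) +
            share (PositiveDivisors (M * N)) (fun d => Odd (r a d)) *
              (∑' e : ℕ, f e * parityLaw 1 e))| ≤ ε) ∧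
        mean (SignedDivisors (M * N)) (fun d =>
          (Module.finrank ℤ (curve (twist d a)).toAffine.Point : ℝ)) ≤ 1.2646 ∧
        0.2097 ≤ share (SignedDivisors (M * N)) (fun d =>
          Module.finrank ℤ (curve (twist d a)).toAffine.Point = 0 ∧
          ∀ x : Pool.Agent.TH841.SH.D.Sha (curve (twist d a)), x + x = 0 → x = 0) ∧
        (∀ d ∈ SignedDivisors (M * N), (r a d : ℝ) ≤ ε * N.primeFactors.card) ∧
        (∀ (F : Type) [Field F] [NumberField F], GeneratedBy F (PrimeDivisors (M * N)) →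
          Module.finrank ℚ F = 2 ^ (M * N).primeFactors.card ∧
          BddAbove {q | HasDiv (curveOver F a) q} ∧
          (rk (curveOver F a) + crk (curveOver F a) : ℝ) ≤ 1.3251 * Module.finrank ℚ F) ∧
        (∀ (F : Type) [Field F] [NumberField F],
          GeneratedBy F (insert (-1) (PrimeDivisors (M * N))) →
          Module.finrank ℚ F = 2 * 2 ^ (M * N).primeFactors.card ∧
          BddAbove {q | HasDiv (curveOver F a) q} ∧
          (rk (curveOver F a) + crk (curveOver F a) : ℝ) ≤ 1.2646 * Module.finrank ℚ F) ∧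
        (∀ (n : ℕ) (t : Fin n → ℤ), Independent t →
          (∀ i, ∀ p : ℕ, p.Prime → (p : ℤ) ∣ t i → p ∣ M * N) →
          ∀ (F : Type) [Field F] [NumberField F], Generated F t →
          (rk (curveOver F a) + crk (curveOver F a) : ℝ) ≤
            ε * N.primeFactors.card * Module.finrank ℚ F) := by
  have H := Q44.LD.F.factsZ
  have HS := Q44.LD.F.factsS
  have hE : ∀ (F : Type) [Field F] [NumberField F] (a : Fin 3 → ℤ), curveOver F a =
      Pool.Agent.TH841.NF.EF (Q44.JQ.X.cA a) (Q44.JQ.X.cB a) F := fun F _ _ a => rfl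
  have hfct : ∀ a : Fin 3 → ℤ, IsModel a → ∀ D : ℤ, D ≠ 0 → ∀ W : WeierstrassCurve ℚ,
      W = curve (twist D a) →
      Finite (Sel2H W) ∧ Nat.card (Sel2H W) = 2 ^ (2 + r a D) ∧
      Finite {x : Pool.Agent.TH841.SH.D.Sha W // x + x = 0} ∧
      2 ^ Module.finrank ℤ W.toAffine.Point *
        Nat.card {x : Pool.Agent.TH841.SH.D.Sha W // x + x = 0} = 2 ^ r a D := by
    rintro a ha D hD W rfl
    obtain ⟨S, hS⟩ := (mdl ha).ex
    exact Q44.LD.fct_one H hS D hD
  have hrk : ∀ a : Fin 3 → ℤ, IsModel a → ∀ D : ℤ, D ≠ 0 →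
      Module.finrank ℤ (curve (twist D a)).toAffine.Point ≤ r a D := by
    intro a ha D hD
    obtain ⟨-, -, h3, h4⟩ := hfct a ha D hD _ rfl
    have h5 : 2 ^ Module.finrank ℤ (curve (twist D a)).toAffine.Point ∣ 2 ^ r a D :=
      ⟨_, h4.symm⟩
    exact (Nat.pow_dvd_pow_iff_le_right (by norm_num)).1 h5
  refine ⟨hfct, ?_, ?_, ?_⟩
  · intro a S ha hS D D' hD hD' hneg hsq
    have h1 := Q44.LD.par_neg H HS (vone ha hS) hD' hD hneg hsq
    rw [← ZMod.natCast_eq_one_iff_odd, Nat.cast_add]
    have key : ∀ x y : ZMod 2, x = y + 1 → x + y = 1 := by decide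
    exact key _ _ h1
  · refine ⟨?_, ?_, ?_, fun j => ?_⟩
    · rw [law_eq]
      have h1 := ((Q44.JQ.M.hasSum_lawc 0).add (Q44.JQ.M.hasSum_lawc 1)).div_const 2
      have h2 : (fun e => (Q44.JQ.lawc 0 e + Q44.JQ.lawc 1 e) / 2) = Pool.Agent.Q269.SL.law2 :=
        funext Q44.LD.law_half
      rw [h2] at h1
      norm_num at h1
      exact h1
    · have h1 : law 0 = Pool.Agent.Q269.MF.bet / 2 := by
        unfold law
        rw [Finset.range_zero, Finset.prod_empty, pow_zero, div_one, mul_one]
        rfl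
      have h2 := Q44.LD.bet_gt
      rw [h1]
      linarith
    · have h1 := Q44.LD.Mu_id
      unfold Q44.LD.Mu at h1
      rw [law_eq]
      simp only [mul_comm] at h1 ⊢
      exact h1
    · have h1 := Q44.LD.Mu_exp j
      unfold Q44.LD.Mu at h1
      rw [law_eq, ← h1]
      exact tsum_congr fun e => mul_comm _ _
  · obtain ⟨𝒩, g1, g2, g3⟩ := Q44.LD.one_GM H
    refine ⟨𝒩, Q44.LD.alm_density g1, fun a ha M hM C ε hC hε => ?_⟩
    have hm := mdl ha
    have hC2 : (0 : ℝ) ≤ max C 2 := le_max_of_le_left hC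
    have hmx : max (Q44.LD.mc 0) (Q44.LD.mc 1) < 1.3251 := by
      have h1 := Q44.LD.mc_zero
      exact max_lt (by linarith) Q44.LD.mc_one
    have hmu := Q44.LD.Mu_id
    have hl0 : law 0 = Pool.Agent.Q269.MF.bet / 2 := by
      unfold law
      rw [Finset.range_zero, Finset.prod_empty, pow_zero, div_one, mul_one]
      rfl
    have hb0 := Q44.LD.bet_gt
    obtain ⟨δ, hδ0, hδ1, hδ2, hδ3, hδ4⟩ : ∃ δ : ℝ, 0 < δ ∧ δ ≤ ε ∧
        δ ≤ 1.3251 - max (Q44.LD.mc 0) (Q44.LD.mc 1) ∧ δ ≤ 0.00002 ∧ δ ≤ law 0 - 0.2097 := by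
      refine ⟨min ε (min (1.3251 - max (Q44.LD.mc 0) (Q44.LD.mc 1)) (min 0.00002 (law 0 - 0.2097))),
        lt_min hε (lt_min (by linarith) (lt_min (by norm_num) (by linarith))), min_le_left _ _,
        (min_le_right _ _).trans (min_le_left _ _),
        (min_le_right _ _).trans ((min_le_right _ _).trans (min_le_left _ _)),
        (min_le_right _ _).trans ((min_le_right _ _).trans (min_le_right _ _))⟩
    filter_upwards [g3 a hm M hM (max C 2) δ hC2 hδ0, Q44.LD.ub_all H HS g2 g3 hm hM hε,
      eventually_ne_atTop 0] with N h3 h4 hN hN'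
    have hG := h3 hN'
    have hU := h4 hN'
    have hMN : M * N ≠ 0 := mul_ne_zero hM hN
    have hR := (Q44.LD.rad_pos (M * N)).ne'
    have hcs : (0 : ℝ) < (Q44.LD.sd (Q44.LD.rad (M * N))).card := by
      rw [Q44.LD.card_sd hR]
      have : 0 < 2 * (Q44.LD.rad (M * N)).divisors.card :=
        Nat.mul_pos two_pos (Finset.card_pos.2 ⟨1, Nat.one_mem_divisors.2 hR⟩)
      exact_mod_cast this
    have hcp : (0 : ℝ) < (Q44.LD.rad (M * N)).divisors.card := by
      exact_mod_cast Finset.card_pos.2 ⟨1, Nat.one_mem_divisors.2 hR⟩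
    have hlaw : ∀ (C' : ℝ) (f : ℕ → ℝ), 0 ≤ C' → C' ≤ max C 2 → (∀ e, |f e| ≤ C' ^ (1 + e)) →
        |mean (SignedDivisors (M * N)) (fun d => f (r a d)) - ∑' e : ℕ, f e * law e| ≤ δ := by
      intro C' f hC' hCC hf
      have h5 := hG.law H HS hM hN hC2 (f := f) fun e => (hf e).trans (pow_le_pow_left₀ hC' hCC _)
      rw [signed_eq hMN, mean_coe, law_eq]
      have h6 : (∑ d ∈ Q44.LD.sd (Q44.LD.rad (M * N)), f (r a d)) /
          ((Q44.LD.sd (Q44.LD.rad (M * N))).card : ℝ) -
            ∑' e : ℕ, f e * Pool.Agent.Q269.SL.law2 e =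
          (∑ d ∈ Q44.LD.sd (Q44.LD.rad (M * N)), f (Q44.LD.wr a d) -
            (Q44.LD.sd (Q44.LD.rad (M * N))).card * Q44.LD.Mu f) /
              (Q44.LD.sd (Q44.LD.rad (M * N))).card := by
        rw [sub_div, mul_div_cancel_left₀ _ hcs.ne']
        rfl
      rw [h6, abs_div, abs_of_pos hcs, div_le_iff₀ hcs]
      exact h5
    have hne0 : ∀ d ∈ SignedDivisors (M * N), d ≠ 0 := fun d hd => hd.1.ne_zero
    have hmean : ∀ f g : ℤ → ℝ, (∀ d ∈ SignedDivisors (M * N), f d ≤ g d) →
        mean (SignedDivisors (M * N)) f ≤ mean (SignedDivisors (M * N)) g := by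
      intro f g hfg
      rw [signed_eq hMN, mean_coe, mean_coe]
      refine div_le_div_of_nonneg_right (Finset.sum_le_sum fun d hd => hfg d ?_) hcs.le
      rw [signed_eq hMN]
      exact hd
    refine ⟨?_, fun f hf => ?_, fun f hf => ?_, ?_, ?_, fun d hd => ?_, fun F _ _ hF => ?_,
      fun F _ _ hF => ?_, fun n t hI ht F _ _ hF => ?_⟩
    · rw [signed_eq hMN, ncard_coe, Set.ncard_coe_finset]
      exact hG.half H HS hM hN
    · exact (hlaw C f hC (le_max_left _ _) hf).trans hδ1
    · have h5 := hG.pos H hM hN (f := f) fun e => (hf e).trans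
        (pow_le_pow_left₀ hC (le_max_left _ _) _)
      obtain ⟨A, hA⟩ : ∃ A : Finset ℤ,
        A = (Q44.LD.rad (M * N)).divisors.image fun d : ℕ => (d : ℤ) := ⟨_, rfl⟩
      have hAc : (A.card : ℝ) = (Q44.LD.rad (M * N)).divisors.card := by
        rw [hA, Finset.card_image_of_injective _ Q44.LD.cast_inj]
      have hA0 : (0 : ℝ) < A.card := by
        rw [hAc]
        exact hcp
      have h6 : ∑ d ∈ A, (f (r a d) - Q44.LD.Jc f ((r a d : ℕ) : ZMod 2)) =
          ∑ d ∈ (Q44.LD.rad (M * N)).divisors, (f (Q44.LD.wr a d) -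
            Q44.LD.Jc f ((Q44.LD.wr a d : ℕ) : ZMod 2)) := by
        rw [hA, Finset.sum_image fun x _ y _ h => Q44.LD.cast_inj h]
        rfl
      have h7 : ∑ d ∈ A, Q44.LD.Jc f ((r a d : ℕ) : ZMod 2) =
          ((A.filter fun d => Even (r a d)).card : ℝ) * Q44.LD.Jc f 0 +
          ((A.filter fun d => Odd (r a d)).card : ℝ) * Q44.LD.Jc f 1 := by
        have h8 : ∀ d : ℤ, Q44.LD.Jc f ((r a d : ℕ) : ZMod 2) =
            (if Even (r a d) then Q44.LD.Jc f 0 else 0) +
              (if Odd (r a d) then Q44.LD.Jc f 1 else 0) := by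
          intro d
          rcases Nat.even_or_odd (r a d) with h | h
          · rw [if_pos h, if_neg (Nat.not_odd_iff_even.2 h),
              (ZMod.natCast_eq_zero_iff_even).2 h, add_zero]
          · rw [if_neg (Nat.not_even_iff_odd.2 h), if_pos h,
              (ZMod.natCast_eq_one_iff_odd).2 h, zero_add]
        rw [Finset.sum_congr rfl fun d _ => h8 d, Finset.sum_add_distrib, ← Finset.sum_filter,
          ← Finset.sum_filter, Finset.sum_const, Finset.sum_const, nsmul_eq_mul, nsmul_eq_mul]
      have h8 : ∀ c : ZMod 2, ∑' e : ℕ, f e * parityLaw c e = Q44.LD.Jc f c := fun c =>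
        tsum_congr fun e => by rw [parity_eq]
      unfold share
      rw [positive_eq hMN, ← hA, mean_coe, ncard_coe, ncard_coe, Set.ncard_coe_finset, h8, h8]
      have h9 : (∑ d ∈ A, f (r a d)) / (A.card : ℝ) -
          (((A.filter fun d => Even (r a d)).card : ℝ) / A.card * Q44.LD.Jc f 0 +
            ((A.filter fun d => Odd (r a d)).card : ℝ) / A.card * Q44.LD.Jc f 1) =
          (∑ d ∈ A, (f (r a d) - Q44.LD.Jc f ((r a d : ℕ) : ZMod 2))) / A.card := by
        rw [Finset.sum_sub_distrib, h7]
        ring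
      rw [h9, abs_div, abs_of_pos hA0, div_le_iff₀ hA0, h6, hAc]
      exact h5.trans (mul_le_mul_of_nonneg_right hδ1 hcp.le)
    · have h5 := (abs_le.1 (hlaw 2 (fun e => (e : ℝ)) (by norm_num) (le_max_right _ _)
        fun e => Q44.LD.id_bd le_rfl e)).2
      have h6 : ∑' e : ℕ, (e : ℝ) * law e = Q44.LD.Mu fun e => (e : ℝ) := by
        rw [law_eq]
        rfl
      rw [h6] at h5
      have h7 := hmean (fun d => (Module.finrank ℤ (curve (twist d a)).toAffine.Point : ℝ))
        (fun d => (r a d : ℝ)) fun d hd => Nat.cast_le.2 (hrk a ha d (hne0 d hd))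
      linarith
    · have h5 := (abs_le.1 (hlaw 1 (fun e => if e = 0 then 1 else 0) (by norm_num)
        ((by norm_num : (1 : ℝ) ≤ 2).trans (le_max_right _ _)) fun e => by
          rw [one_pow]
          split_ifs
          · rw [abs_one]
          · rw [abs_zero]
            exact zero_le_one)).1
      have h6 : ∑' e : ℕ, (if e = 0 then (1 : ℝ) else 0) * law e = law 0 := by
        rw [tsum_eq_single 0 fun e he => by rw [if_neg he, zero_mul], if_pos rfl, one_mul]
      rw [h6] at h5
      have h7 : mean (SignedDivisors (M * N)) (fun d => if r a d = 0 then (1 : ℝ) else 0) ≤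
          share (SignedDivisors (M * N)) (fun d =>
            Module.finrank ℤ (curve (twist d a)).toAffine.Point = 0 ∧
            ∀ x : Pool.Agent.TH841.SH.D.Sha (curve (twist d a)), x + x = 0 → x = 0) := by
        unfold share
        rw [signed_eq hMN, mean_coe, ncard_coe, Set.ncard_coe_finset, Finset.sum_boole]
        refine div_le_div_of_nonneg_right (Nat.cast_le.2 (Finset.card_le_card ?_)) hcs.le
        refine Finset.monotone_filter_right _ fun d hd h0 => ?_
        have hd0 : d ≠ 0 := hne0 d (by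
          rw [signed_eq hMN]
          exact hd)
        obtain ⟨-, -, h8, h9⟩ := hfct a ha d hd0 _ rfl
        rw [h0, pow_zero] at h9
        have h10 := Nat.dvd_one.1 (Dvd.intro _ h9)
        have h11 := Nat.dvd_one.1 (Dvd.intro_left _ h9)
        refine ⟨(Nat.pow_eq_one.1 h10).resolve_left (by norm_num), fun x hx => ?_⟩
        have h12 : Subsingleton {x : Pool.Agent.TH841.SH.D.Sha (curve (twist d a)) // x + x = 0} :=
          (Nat.card_eq_one_iff_unique.1 h11).1
        have h13 := h12.elim ⟨x, hx⟩ ⟨0, add_zero 0⟩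
        exact congrArg Subtype.val h13
      linarith
    · rw [signed_eq hMN] at hd
      exact hU d hd
    · rw [prime_eq hMN] at hF
      obtain ⟨h5, h6, h7⟩ := Q44.LD.fld_pos H hm (Q44.LD.rad_sq (M * N)) hF
      rw [Q44.LD.rad_pf] at h5
      refine ⟨h5, h6, ?_⟩
      have h8 := Q44.LD.sum_pos H hM hN hG (le_max_right _ _)
      rw [Q44.LD.card_div (Q44.LD.rad_sq _), Q44.LD.rad_pf] at h8
      have h9 : (Q44.JQ.X.cA a, Q44.JQ.X.cB a) = (Q44.JQ.X.cA a, Q44.JQ.X.cB a) := rfl
      rw [h5]
      have h10 : (rk (curveOver F a) + crk (curveOver F a) : ℝ) ≤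
          ∑ d ∈ (Q44.LD.rad (M * N)).divisors, (Q44.LD.wr a (d : ℤ) : ℝ) := by exact_mod_cast h7
      refine h10.trans (h8.trans ?_)
      push_cast
      exact mul_le_mul_of_nonneg_right (by linarith) (by positivity)
    · rw [prime_eq hMN] at hF
      have hF' : Q44.LD.GenA F (insert (-1) (Q44.LD.Pz (Q44.LD.rad (M * N))) : Finset ℤ) := by
        rw [Finset.coe_insert]
        exact hF
      obtain ⟨h5, h6, h7⟩ := Q44.LD.fld_sd H hm (Q44.LD.rad_sq (M * N)) hF'
      rw [Q44.LD.rad_pf] at h5
      refine ⟨h5, h6, ?_⟩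
      have h8 := Q44.LD.sum_sd H HS hM hN hG (le_max_right _ _)
      rw [Q44.LD.card_sd hR, Q44.LD.card_div (Q44.LD.rad_sq _), Q44.LD.rad_pf] at h8
      rw [h5]
      have h10 : (rk (curveOver F a) + crk (curveOver F a) : ℝ) ≤
          ∑ d ∈ Q44.LD.sd (Q44.LD.rad (M * N)), (Q44.LD.wr a d : ℝ) := by exact_mod_cast h7
      refine h10.trans (h8.trans ?_)
      push_cast
      exact mul_le_mul_of_nonneg_right (by linarith) (by positivity)
    · refine Q44.LD.fld_sub H hm (Q44.LD.rad_sq (M * N)) hU (fun i => ⟨?_, fun p hp hd => ?_⟩) hI hF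
      · have h5 := hI {i} (Finset.singleton_nonempty i)
        rw [Finset.prod_singleton] at h5
        rintro h6
        exact h5 (h6 ▸ IsSquare.zero)
      · exact (Q44.LD.dvd_rad hMN hp.squarefree).2 (ht i p hp hd)

end Pool.Agent.Results.MP_157626_nt.DivisorsOfAlmostEveryInteger
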