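import Pool.Agent.Q44.MX.Facts
import Pool.Agent.Q44.MX.Rel
import Pool.Agent.Q44.MX.Hr
import Pool.Agent.Q44.LD.FactsT

/-!
# The largest 2-Selmer rank among the quadratic twists by the divisors of almost every integer

Let `E` be an elliptic curve `y ^ 2 = (x - a 0) (x - a 1) (x - a 2)` over `ℚ` with different integers
`a i` of sum 0 (`IsModel`; *every* elliptic curve over `ℚ` with full rational 2-torsion has such an
equation). For an integer `D ≠ 0` let `#Sel_2(E ^ (D)) = 2 ^ (2 + r(E, D))` for the quadratic twist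
`E ^ (D)`; then `2 ^ rank #Ш[2] = 2 ^ r(E, D)` (first part). Let `s(E)` be the number of the relations
modulo squares between `-1` and the three differences of the roots (`relations`; a power of 2 which divides 8), and
`κ(E) = 1` if `E` has no rational cyclic subgroup of order 4, `κ(E) = 2` if it has one.

**The theorem.** There is *one* set `𝒩` of positive integers of natural density one with the following
properties, where `ω(N)` is the number of the prime divisors of `N`; moreover `ω(N) = (1 + o(1)) log log N` for the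
`N` in `𝒩`, so that all the bounds can be read with `log log N` in place of `ω(N)`.

(1) *Upper bound.* For *all* these curves `E`, all `M ≥ 1` and all `ε > 0`, all sufficiently large `N` in `𝒩`
satisfy for *every* `k`:

  the number of the squarefree divisors `d` of `M N` of both signs with `r(E, d) ≥ k` is at most
  `2 ^ ((1 + ε) ω(N) - k ^ 2 / (2 κ(E)))`,

so that *all* the `2 · 2 ^ ω(M N)` twists satisfy `rank E ^ (d) ≤ r(E, d) ≤ (√(2 κ(E)) + ε) √ω(N)` (the trivial
bound is about `2 ω(d)`, and the earlier bound for almost all `N` is `ε ω(N)`, for curves without cyclic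
subgroup of order 4), and for *every* field `F` generated by square roots of independent integers whose prime
factors divide `M N`:

  `rank E(F) + corank Ш(E / F)[2 ^ ∞] ≤ (√(2 κ(E)) + ε) √ω(N) [F : ℚ]`.

(2) *Lower bound.* For all these curves `E`, all `0 ≤ x < √(s(E) / 2)` and `ε > 0`, all sufficiently large `N`
in `𝒩` have at least `2 ^ ((s(E) / 16 - x ^ 2 / 8 - ε) ω(N))` positive squarefree divisors `d` with
`r(E, d) ≥ x √ω(N)`.

(3) *Sharpness.* For `E : y ^ 2 = x (x - u ^ 2) (x + v ^ 2)`, `u v ≠ 0`, both bounds agree: let `c = √2` if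
`u ^ 2 + v ^ 2` is not a square (`κ = 1`, `s = 4`) and `c = 2` if `u ^ 2 + v ^ 2` is a square
(`κ = 2`, `s = 8`). For all `N` in `𝒩` the largest of the numbers `r(E, d)`, `d ∣ N`, is
`(c + o(1)) √ω(N)`. In particular (`u = v = 1`) the largest 2-Selmer rank of the congruent number curves
`y ^ 2 = x ^ 3 - d ^ 2 x`, `d ∣ N`, is `(√2 + o(1)) √ω(N)` for 100 percent of all `N`.

So the order of magnitude of the largest 2-Selmer rank among the `2 ^ ω(N)` twists by the divisors of a typical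
integer `N` is exactly `√ω(N)`, as for `2 ^ ω(N)` independent random variables with the limit law of
Heath-Brown, whose tail is about `2 ^ (- k ^ 2 / 2)`. (In the examples most of the large Selmer ranks are expected to
come from `Ш`; the theorem bounds the ranks and the Tate-Shafarevich groups together.)

Idea of the proof. Upper bound: for a fixed set of primes the 2-Selmer group of the twist by the product `d` of a
subset is the kernel of a matrix of quadratic residue symbols which are uniformly distributed for almost all `N` (large sieve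
and Siegel-Walfisz, uniformly on blocks of labels). The moment of order `j ≈ k` of the Selmer group counts tuples of vectors by their
Gram matrices over `𝔽_2`; isotropic tuples give `2 ^ (j (j + 1) / 2)`, so that the probability of `r ≥ k` is at
most `2 ^ (- k ^ 2 / 2 + O(k log k))` uniformly in `d`, as long as the residue classes of the primes of `d` generate
the endomorphisms of `E[2]`; the divisors `d` for which they do not are few, and the weaker tail bound
`2 ^ (- k ^ 2 / 4)`, `2 ^ (- k ^ 2 / 8)` for them is compensated by their number. Lower bound: for the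
products `d` of primes which split completely in the field of the square roots of `-1` and the differences of the
roots the Selmer group contains twice the kernel of the Laplacian of a random graph on the primes of `d`; a
second moment computation for all pairs of subsets (coranks of random symmetric matrices over `𝔽_2` with a
common principal submatrix) gives the number of subsets with large corank.
-/

set_option autoImplicit false
set_option linter.all false

namespace Pool.Agent.Results.MP_157626_nt.LargestSelmerRank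

open Filter Topology
open Pool.Agent.Y667.SX (Sel2H)
open scoped Classical

/-! ### The curves -/

/-- The curve `y ^ 2 = (x - a 0) (x - a 1) (x - a 2)` over the field `F`, for `a 0 + a 1 + a 2 = 0`. -/
def curveOver (F : Type) [Field F] (a : Fin 3 → ℤ) : WeierstrassCurve F :=
  ⟨0, 0, 0, ((a 0 * a 1 + a 0 * a 2 + a 1 * a 2 : ℤ) : F), ((-(a 0 * a 1 * a 2) : ℤ) : F)⟩

/-- The curve over the rationals. -/
def curve (a : Fin 3 → ℤ) : WeierstrassCurve ℚ := curveOver ℚ a

/-- The roots `D a i` of the quadratic twist by `D`. -/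
def twist (D : ℤ) (a : Fin 3 → ℤ) : Fin 3 → ℤ := fun i => D * a i

/-- The three roots are different and their sum is 0. -/
structure IsModel (a : Fin 3 → ℤ) : Prop where
  distinct : Function.Injective a
  sum : a 0 + a 1 + a 2 = 0

/-- The product of the differences of one root with the two others is not a square: the curve has no rational
cyclic subgroup of order 4. -/
def NoCyclicFour (a : Fin 3 → ℤ) : Prop :=
  ∀ i j l, i ≠ j → i ≠ l → j ≠ l → ∀ s : ℤ, (a i - a j) * (a i - a l) ≠ s ^ 2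

/-- The number of the relations modulo squares between `-1` and the three differences of the roots. -/
noncomputable def relations (a : Fin 3 → ℤ) : ℕ :=
  {I : Finset (Fin 4) | IsSquare (∏ i ∈ I, (![-1, a 0 - a 1, a 0 - a 2, a 1 - a 2] : Fin 4 → ℤ) i)}.ncard

/-- The number `r` in `#Sel_2 = 2 ^ (2 + r)`. -/
noncomputable def selmerRank (W : WeierstrassCurve ℚ) : ℕ := Nat.log 2 (Nat.card (Sel2H W)) - 2

/-- The number `r` for the twist by `D`. -/
noncomputable def r (a : Fin 3 → ℤ) (D : ℤ) : ℕ := selmerRank (curve (twist D a))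

/-- The roots of a model of the curve `y ^ 2 = x (x - u ^ 2) (x + v ^ 2)`. -/
def model (u v : ℤ) : Fin 3 → ℤ :=
  ![3 * v ^ 2 - 3 * u ^ 2, 6 * u ^ 2 + 3 * v ^ 2, -3 * u ^ 2 - 6 * v ^ 2]

/-! ### The divisors -/

/-- The number of the prime divisors of `n`. -/
def omega (n : ℕ) : ℕ := n.primeFactors.card

/-- The squarefree divisors of `n`, positive and negative. -/
def SignedDivisors (n : ℕ) : Set ℤ := {d | Squarefree d ∧ d ∣ (n : ℤ)}

/-- The positive squarefree divisors of `n`. -/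
def PositiveDivisors (n : ℕ) : Set ℤ := {d | 0 < d ∧ Squarefree d ∧ d ∣ (n : ℤ)}

/-- The set of integers has natural density one. -/
def DensityOne (𝒩 : ℕ → Prop) : Prop :=
  Tendsto (fun X : ℕ => (Nat.card {N : ℕ // 1 ≤ N ∧ N ≤ X ∧ 𝒩 N} : ℝ) / X) atTop (𝓝 1)

/-- The number field `F` is generated by square roots of the integers `t i`. -/
def Generated (F : Type) [Field F] [NumberField F] {n : ℕ} (t : Fin n → ℤ) : Prop :=
  ∃ x : Fin n → F, (∀ i, x i ^ 2 = (t i : F)) ∧ IntermediateField.adjoin ℚ (Set.range x) = ⊤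

/-- The integers `t i` are independent modulo squares. -/
def Independent {n : ℕ} (t : Fin n → ℤ) : Prop :=
  ∀ T : Finset (Fin n), T.Nonempty → ¬ IsSquare (∏ i ∈ T, t i)

/-! ### Comparison with the definitions of the proof -/

section comparison

open Q44.LD

theorem r_eq (a : Fin 3 → ℤ) (D : ℤ) : r a D = wr a D := rfl

theorem mz {a : Fin 3 → ℤ} (h : IsModel a) : Q44.MX.Mz a := ⟨h.distinct, h.sum⟩

theorem signed_eq {n : ℕ} (hn : n ≠ 0) : SignedDivisors n = (sd (rad n) : Finset ℤ) := by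
  ext d
  rw [Finset.mem_coe, mem_sd (rad_pos n).ne']
  constructor
  · rintro ⟨h1, h2⟩
    rw [← Int.natAbs_dvd, Int.natCast_dvd_natCast]
    exact (dvd_rad hn (Int.squarefree_natAbs.2 h1)).2 (Int.natCast_dvd_natCast.1
      (Int.natAbs_dvd.2 h2))
  · intro h
    exact ⟨(Int.squarefree_natCast.2 (rad_sq n)).squarefree_of_dvd h,
      h.trans (Int.natCast_dvd_natCast.2 (rad_dvd n))⟩

theorem positive_eq {n : ℕ} (hn : n ≠ 0) : PositiveDivisors n =
    ((rad n).divisors.image (fun d : ℕ => (d : ℤ)) : Finset ℤ) := by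
  ext d
  rw [Finset.mem_coe, Finset.mem_image]
  constructor
  · rintro ⟨h0, h1, h2⟩
    refine ⟨d.natAbs, Nat.mem_divisors.2 ⟨?_, (rad_pos n).ne'⟩, Int.natAbs_of_nonneg h0.le⟩
    exact (dvd_rad hn (Int.squarefree_natAbs.2 h1)).2 (Int.natCast_dvd_natCast.1
      (Int.natAbs_dvd.2 h2))
  · rintro ⟨d, hd, rfl⟩
    have h1 := Nat.dvd_of_mem_divisors hd
    refine ⟨by exact_mod_cast Nat.pos_of_mem_divisors hd,
      Int.squarefree_natCast.2 ((rad_sq n).squarefree_of_dvd h1),
      Int.natCast_dvd_natCast.2 (h1.trans (rad_dvd n))⟩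

theorem ncard_coe (A : Finset ℤ) (P : ℤ → Prop) [DecidablePred P] :
    {d ∈ (A : Set ℤ) | P d}.ncard = (A.filter P).card := by
  rw [← Set.ncard_coe_finset, Finset.coe_filter]
  rfl

theorem ncard_pos {n : ℕ} (hn : n ≠ 0) (P : ℤ → Prop) [DecidablePred P] :
    {d ∈ PositiveDivisors n | P d}.ncard = ((rad n).divisors.filter fun d : ℕ => P (d : ℤ)).card := by
  rw [positive_eq hn, ncard_coe, Finset.filter_image,
    Finset.card_image_of_injective _ Q44.LD.cast_inj]

theorem relations_eq (a : Fin 3 → ℤ) : relations a = Q44.MX.sqn a := Q44.MX.rel_eq a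

theorem model_eq (u v : ℤ) : model u v = Q44.MX.uv u v := rfl

/-- The model is the curve `y ^ 2 = x ^ 3 + (v ^ 2 - u ^ 2) x ^ 2 - u ^ 2 v ^ 2 x`. -/
theorem model_iso (u v : ℤ) : ∃ C : WeierstrassCurve.VariableChange ℚ, C • curve (model u v) =
    (⟨0, (v : ℚ) ^ 2 - (u : ℚ) ^ 2, 0, -((u : ℚ) ^ 2 * (v : ℚ) ^ 2), 0⟩ : WeierstrassCurve ℚ) := by
  refine ⟨⟨Units.mk0 3 (by norm_num), 3 * (v : ℚ) ^ 2 - 3 * (u : ℚ) ^ 2, 0, 0⟩, ?_⟩
  have e0 : model u v 0 = 3 * v ^ 2 - 3 * u ^ 2 := rfl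
  have e1 : model u v 1 = 6 * u ^ 2 + 3 * v ^ 2 := rfl
  have e2 : model u v 2 = -3 * u ^ 2 - 6 * v ^ 2 := rfl
  ext
  · simp [WeierstrassCurve.variableChange_a₁, curve, curveOver]
  · simp [WeierstrassCurve.variableChange_a₂, curve, curveOver]
    field_simp
  · simp [WeierstrassCurve.variableChange_a₃, curve, curveOver]
  · simp [WeierstrassCurve.variableChange_a₄, curve, curveOver, e0, e1, e2]
    field_simp
    ring
  · simp [WeierstrassCurve.variableChange_a₆, curve, curveOver, e0, e1, e2]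
    field_simp
    ring

end comparison

open Pool.Agent.TH841.NF.D (HasDiv rk crk) in
theorem result :
    (∀ a : Fin 3 → ℤ, IsModel a → ∀ D : ℤ, D ≠ 0 → ∀ W : WeierstrassCurve ℚ, W = curve (twist D a) →
      Finite (Sel2H W) ∧ Nat.card (Sel2H W) = 2 ^ (2 + r a D) ∧
      Finite {x : Pool.Agent.TH841.SH.D.Sha W // x + x = 0} ∧
      2 ^ Module.finrank ℤ W.toAffine.Point *
        Nat.card {x : Pool.Agent.TH841.SH.D.Sha W // x + x = 0} = 2 ^ r a D) ∧
    ∃ 𝒩 : ℕ → Prop, DensityOne 𝒩 ∧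
      -- the number of the prime divisors
      (∀ ε : ℝ, 0 < ε → ∀ᶠ N : ℕ in atTop, 𝒩 N →
        |(omega N : ℝ) - Real.log (Real.log N)| ≤ ε * Real.log (Real.log N)) ∧
      -- the upper bounds
      (∀ a : Fin 3 → ℤ, IsModel a → ∀ κ : ℝ, (κ = 2 ∨ (κ = 1 ∧ NoCyclicFour a)) →
        ∀ M : ℕ, M ≠ 0 → ∀ ε : ℝ, 0 < ε → ∀ᶠ N : ℕ in atTop, 𝒩 N →
        (∀ k : ℕ, ({d ∈ SignedDivisors (M * N) | k ≤ r a d}.ncard : ℝ) ≤
          (2 : ℝ) ^ ((1 + ε) * (omega N : ℝ) - (k : ℝ) ^ 2 / (2 * κ))) ∧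
        (∀ d ∈ SignedDivisors (M * N),
          Module.finrank ℤ (curve (twist d a)).toAffine.Point ≤ r a d ∧
          (r a d : ℝ) ≤ (√(2 * κ) + ε) * √(omega N : ℝ)) ∧
        (∀ (n : ℕ) (t : Fin n → ℤ), Independent t →
          (∀ i, ∀ p : ℕ, p.Prime → (p : ℤ) ∣ t i → p ∣ M * N) →
          ∀ (F : Type) [Field F] [NumberField F], Generated F t →
          Module.finrank ℚ F = 2 ^ n ∧ BddAbove {q | HasDiv (curveOver F a) q} ∧
          (rk (curveOver F a) + crk (curveOver F a) : ℝ) ≤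
            (√(2 * κ) + ε) * √(omega N : ℝ) * Module.finrank ℚ F)) ∧
      -- the lower bounds
      (∀ a : Fin 3 → ℤ, IsModel a → ∀ x : ℝ, 0 ≤ x → x ^ 2 < (relations a : ℝ) / 2 →
        ∀ ε : ℝ, 0 < ε → ∀ᶠ N : ℕ in atTop, 𝒩 N →
        (2 : ℝ) ^ (((relations a : ℝ) / 16 - x ^ 2 / 8 - ε) * (omega N : ℝ)) ≤
          ({d ∈ PositiveDivisors N | x * √(omega N : ℝ) ≤ r a d}.ncard : ℝ)) ∧
      -- the curves `y ^ 2 = x (x - u ^ 2) (x + v ^ 2)`
      (∀ u v : ℤ, u ≠ 0 → v ≠ 0 → ∀ c : ℝ,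
        ((¬ IsSquare (u ^ 2 + v ^ 2) ∧ c = √2) ∨ (IsSquare (u ^ 2 + v ^ 2) ∧ c = 2)) →
        (∃ C : WeierstrassCurve.VariableChange ℚ, C • curve (model u v) =
          (⟨0, (v : ℚ) ^ 2 - (u : ℚ) ^ 2, 0, -((u : ℚ) ^ 2 * (v : ℚ) ^ 2), 0⟩ : WeierstrassCurve ℚ)) ∧
        IsModel (model u v) ∧
        ∀ ε : ℝ, 0 < ε → ∀ᶠ N : ℕ in atTop, 𝒩 N →
          (∀ d ∈ PositiveDivisors N, (r (model u v) d : ℝ) ≤ (c + ε) * √(omega N : ℝ)) ∧
          ∃ d ∈ PositiveDivisors N, (c - ε) * √(omega N : ℝ) ≤ r (model u v) d) := by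
  have H := Q44.LD.F.factsZ
  have HM : Q44.MX.FactsM := Q44.MX.factsM
  have hfct : ∀ a : Fin 3 → ℤ, IsModel a → ∀ D : ℤ, D ≠ 0 → ∀ W : WeierstrassCurve ℚ,
      W = curve (twist D a) →
      Finite (Sel2H W) ∧ Nat.card (Sel2H W) = 2 ^ (2 + r a D) ∧
      Finite {x : Pool.Agent.TH841.SH.D.Sha W // x + x = 0} ∧
      2 ^ Module.finrank ℤ W.toAffine.Point *
        Nat.card {x : Pool.Agent.TH841.SH.D.Sha W // x + x = 0} = 2 ^ r a D := by
    rintro a ha D hD W rfl
    exact (Q44.MX.fctG H (mz ha) D hD).2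
  have hrk : ∀ a : Fin 3 → ℤ, IsModel a → ∀ D : ℤ, D ≠ 0 →
      Module.finrank ℤ (curve (twist D a)).toAffine.Point ≤ r a D := by
    intro a ha D hD
    obtain ⟨-, -, h3, h4⟩ := hfct a ha D hD _ rfl
    have h5 : 2 ^ Module.finrank ℤ (curve (twist D a)).toAffine.Point ∣ 2 ^ r a D :=
      ⟨_, h4.symm⟩
    exact (Nat.pow_dvd_pow_iff_le_right (by norm_num)).1 h5
  obtain ⟨𝒟₁, e1, -, g3⟩ := Q44.MX.fin_MX H HM
  obtain ⟨𝒟₂, e2, e3⟩ := Q44.MX.hr_set
  obtain ⟨𝒩, h𝒩⟩ : ∃ 𝒩 : ℕ → Prop, 𝒩 = fun N => 𝒟₁ N ∧ 𝒟₂ N := ⟨_, rfl⟩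
  have g1 : Q155.NL.Alm (fun _ => True) 𝒩 := by
    rw [h𝒩]
    exact Q155.NL.alm_and e1 e2
  have g4 : ∀ N, 𝒩 N → 𝒟₁ N := fun N h => by
    rw [h𝒩] at h
    exact h.1
  have g5 : ∀ N, 𝒩 N → 𝒟₂ N := fun N h => by
    rw [h𝒩] at h
    exact h.2
  have hOm : ∀ ε : ℝ, 0 < ε → ∀ᶠ N : ℕ in atTop, 𝒩 N →
      |(omega N : ℝ) - Real.log (Real.log N)| ≤ ε * Real.log (Real.log N) := by
    intro ε hε
    filter_upwards [e3 ε hε] with N h hN
    exact h (g5 N hN)
  have hUp : ∀ a : Fin 3 → ℤ, IsModel a → ∀ κ : ℝ, (κ = 2 ∨ (κ = 1 ∧ NoCyclicFour a)) →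
        ∀ M : ℕ, M ≠ 0 → ∀ ε : ℝ, 0 < ε → ∀ᶠ N : ℕ in atTop, 𝒩 N →
        (∀ k : ℕ, ({d ∈ SignedDivisors (M * N) | k ≤ r a d}.ncard : ℝ) ≤
          (2 : ℝ) ^ ((1 + ε) * (omega N : ℝ) - (k : ℝ) ^ 2 / (2 * κ))) ∧
        (∀ d ∈ SignedDivisors (M * N),
          Module.finrank ℤ (curve (twist d a)).toAffine.Point ≤ r a d ∧
          (r a d : ℝ) ≤ (√(2 * κ) + ε) * √(omega N : ℝ)) ∧
        (∀ (n : ℕ) (t : Fin n → ℤ), Independent t →
          (∀ i, ∀ p : ℕ, p.Prime → (p : ℤ) ∣ t i → p ∣ M * N) →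
          ∀ (F : Type) [Field F] [NumberField F], Generated F t →
          Module.finrank ℚ F = 2 ^ n ∧ BddAbove {q | HasDiv (curveOver F a) q} ∧
          (rk (curveOver F a) + crk (curveOver F a) : ℝ) ≤
            (√(2 * κ) + ε) * √(omega N : ℝ) * Module.finrank ℚ F) := by
    intro a ha κ hκ M hM ε hε
    filter_upwards [(g3 a (mz ha)).1 κ hκ M hM ε hε, eventually_ne_atTop 0] with N h1 hN hN'
    obtain ⟨h2, h3⟩ := h1 (g4 N hN')
    have hMN : M * N ≠ 0 := mul_ne_zero hM hN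
    refine ⟨fun k => ?_, fun d hd => ⟨hrk a ha d hd.1.ne_zero, ?_⟩, fun n t hI ht F _ _ hF => ?_⟩
    · rw [signed_eq hMN, ncard_coe]
      exact h2 k
    · rw [signed_eq hMN] at hd
      exact h3 d hd
    · have h4 := Q44.MX.fld_subG H (mz ha) (F := F) (Q44.LD.rad_sq (M * N)) h3
        (fun i => ⟨?_, fun p hp hd => ?_⟩) hI hF
      · refine ⟨?_, h4⟩
        obtain ⟨x, hx, hF'⟩ := hF
        have h5 := Pool.Agent.Y73.QMQ1.card_gal (K := F) (d := t) hI hx hF'
        have := Pool.Agent.Y73.QMQ1.gal_of (K := F) hx hF'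
        rw [IsGalois.card_aut_eq_finrank] at h5
        exact h5
      · have h5 := hI {i} (Finset.singleton_nonempty i)
        rw [Finset.prod_singleton] at h5
        rintro h6
        exact h5 (h6 ▸ IsSquare.zero)
      · exact (Q44.LD.dvd_rad hMN hp.squarefree).2 (ht i p hp hd)
  have hLo : ∀ a : Fin 3 → ℤ, IsModel a → ∀ x : ℝ, 0 ≤ x → x ^ 2 < (relations a : ℝ) / 2 →
        ∀ ε : ℝ, 0 < ε → ∀ᶠ N : ℕ in atTop, 𝒩 N →
        (2 : ℝ) ^ (((relations a : ℝ) / 16 - x ^ 2 / 8 - ε) * (omega N : ℝ)) ≤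
          ({d ∈ PositiveDivisors N | x * √(omega N : ℝ) ≤ r a d}.ncard : ℝ) := by
    intro a ha x hx hxs ε hε
    rw [relations_eq] at hxs ⊢
    filter_upwards [(g3 a (mz ha)).2 x hx hxs ε hε, eventually_ne_atTop 0] with N h1 hN hN'
    rw [ncard_pos hN]
    exact h1 (g4 N hN')
  refine ⟨hfct, 𝒩, Q44.LD.alm_density g1, hOm, hUp, hLo, fun u v hu hv c hc => ?_⟩
  have hm : IsModel (model u v) := ⟨Q44.MX.uv_inj hu hv, Q44.MX.uv_sum u v⟩
  refine ⟨model_iso u v, hm, fun ε hε => ?_⟩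
  -- the two constants
  obtain ⟨κ, hκ, hcκ, hκc⟩ : ∃ κ : ℝ, (κ = 2 ∨ (κ = 1 ∧ NoCyclicFour (model u v))) ∧ c = √(2 * κ) ∧
      (relations (model u v) : ℝ) / 2 = c ^ 2 := by
    rcases hc with ⟨h1, rfl⟩ | ⟨h1, rfl⟩
    · refine ⟨1, Or.inr ⟨rfl, Q44.MX.uv_c4 hu hv h1⟩, by rw [mul_one], ?_⟩
      have h2 : relations (model u v) = 4 := Q44.MX.rel_four hu hv h1
      rw [h2, Real.sq_sqrt (by norm_num)]
      norm_num
    · refine ⟨2, Or.inl rfl, ?_, ?_⟩
      · rw [show (2 : ℝ) * 2 = 2 ^ 2 by norm_num, Real.sqrt_sq (by norm_num)]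
      · have h2 : relations (model u v) = 8 := Q44.MX.rel_eight hu hv h1
        rw [h2]
        norm_num
  have hc0 : 0 ≤ c := by
    rw [hcκ]
    positivity
  have hcp : 0 < c ^ 2 := by
    rcases hc with ⟨-, rfl⟩ | ⟨-, rfl⟩
    · rw [Real.sq_sqrt (by norm_num)]
      norm_num
    · norm_num
  obtain ⟨x, hx0, hx1, hx2⟩ : ∃ x : ℝ, 0 ≤ x ∧ c - ε ≤ x ∧ x ^ 2 < c ^ 2 := by
    have hc1 : 0 < c := by
      rcases hc0.lt_or_eq with h | h
      · exact h
      · rw [← h] at hcp
        norm_num at hcp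
    refine ⟨max 0 (c - ε), le_max_left _ _, le_max_right _ _, ?_⟩
    exact pow_lt_pow_left₀ (max_lt hc1 (by linarith)) (le_max_left _ _) two_ne_zero
  filter_upwards [hUp _ hm κ hκ 1 one_ne_zero ε hε, hLo _ hm x hx0 (by rw [hκc]; exact hx2) 1 one_pos]
    with N h1 h2 hN'
  rw [one_mul, ← hcκ] at h1
  refine ⟨fun d hd => ((h1 hN').2.1 d ⟨hd.2.1, hd.2.2⟩).2, ?_⟩
  have h3 : 0 < ({d ∈ PositiveDivisors N | x * √(omega N : ℝ) ≤ r (model u v) d}.ncard : ℝ) :=
    lt_of_lt_of_le (by positivity) (h2 hN')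
  obtain ⟨d, hd, hd2⟩ := Set.nonempty_of_ncard_ne_zero
    (Nat.cast_pos.1 h3).ne'
  exact ⟨d, hd, (mul_le_mul_of_nonneg_right hx1 (Real.sqrt_nonneg _)).trans hd2⟩

end Pool.Agent.Results.MP_157626_nt.LargestSelmerRank
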