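import Pool.Agent.Q155.NB.Prt
import Pool.Agent.Q155.NB.Fld3
import Pool.Agent.Q155.NB.AggT

/-!
# The ranks of elliptic curves over the fields `ℚ(√p : p ∣ D)`, for almost all squarefree `D`

Let `E : y² = x³ + a x² + b x`, `a` and `b` integers such that `b` is not a square and `b (a² - 4 b)` is a
square different from `0`, and let `E_N : y² = x³ + a N x² + b N² x` be its quadratic twists. There is ONE set
`𝒮` of squarefree positive integers which contains almost all of them (its density among the squarefree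
positive integers, in the natural order, is one), such that for all these curves and EVERY squarefree
integer `M` (positive or negative) the following holds for all sufficiently large `D ∈ 𝒮` (how large may
depend on the curve and on `M`). Let `M ∘ d` be the squarefree integer in the square class of `M d`, and
`size N = 2 ^ rank(E_N) · # Ш(E_N)[2]`.

* The mean of `√(size (M ∘ d))` over the `2 ^ ω(D)` divisors `d` of `D` is at most `C`, and for all `y > 0` the
  share of the divisors with `size (M ∘ d) ≥ y` is at most `C / √y`; `C` depends on `a`, `b` only, not on `M`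
  and `D`.
* The rank of `E_M` over the multiquadratic field `K = ℚ(√p : p ∣ D)`, of degree `2 ^ ω(D)`, is at
  most `C [K : ℚ]`.
* There is a constant `C₁` (which depends on `a`, `b` only) such that for every `R` and all large `D ∈ 𝒮` (how large
  may depend on `R` too) the share of the divisors with `2 ^ rank · # Ш[2] > 4 ^ R` is at
  most `C₁ ^ (R + 1) / 2 ^ (R (R + 1))`.
* For every `k` the mean of `rank(E_{M ∘ d}) ^ k` over the divisors `d` of `D` is at most `C_k`, a constant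
  which depends on `a`, `b` and `k` only.
* For `a = 4`, `b = 2`, `M` negative and odd, `D` odd, and for `a = b = 5`, `M` negative and even, `D` odd,
  the rank of `E_M` over `K = ℚ(√p : p ∣ D)` is at most `1.75 [K : ℚ]`, the mean of `√(size (M ∘ d))` is at
  most `2.01` and for all `y > 0` the share of the divisors with `2 ^ rank · # Ш[2] ≥ y` is at most `2.01 / √y`.

Nothing is assumed about the curve `E_M`, the rank of which can be large.
-/

set_option autoImplicit false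

open Finset Filter

namespace Pool.Agent.Results.MP_157626_nt.RanksOverRootsOfDivisors

/-- the curve `y² = x³ + A x² + B x` over `ℚ` -/
def E (A B : ℤ) : WeierstrassCurve ℚ :=
  { a₁ := 0, a₂ := (A : ℚ), a₃ := 0, a₄ := (B : ℚ), a₆ := 0 }

/-- the rank of the group of rational points of `y² = x³ + A x² + B x` -/
noncomputable def rank (A B : ℤ) : ℕ := Module.finrank ℤ (E A B).toAffine.Point

open Classical in
/-- the `2`-torsion of the Tate-Shafarevich group of `y² = x³ + A x² + B x` -/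
def ShaTwo (A B : ℤ) : Type := {x : Pool.Agent.W262.SH.Sha (E A B) // x + x = 0}

/-- `z` is, up to squares, the abscissa of a point over `F` of `y² = x³ + A x² + B x` -/
def Loc (F : Type) [Field F] (A B z : ℤ) : Prop :=
  ∃ x y r : F, x ≠ 0 ∧ y ^ 2 = x ^ 3 + (A : F) * x ^ 2 + (B : F) * x ∧ x = (z : F) * r ^ 2

/-- the Selmer group of the isogeny of degree two onto `y² = x³ + A x² + B x`, a subgroup of `ℚ*/ℚ*²`
which is described by squarefree integers -/
def Sel (A B : ℤ) : Set ℤ :=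
  {z | Squarefree z ∧ (∀ (p : ℕ) [Fact p.Prime], Loc ℚ_[p] A B z) ∧ Loc ℝ A B z}

/-- the Selmer group of the isogeny onto `E_D : y² = x³ + a D x² + b D² x` -/
def SelDual (a b D : ℤ) : Set ℤ := Sel (a * D) (b * D ^ 2)

/-- the Selmer group of the isogeny from `E_D` onto
`E_D' : y² = x³ - 2 a D x² + (a² - 4 b) D² x` -/
def SelPhi (a b D : ℤ) : Set ℤ := Sel (-2 * a * D) ((a ^ 2 - 4 * b) * D ^ 2)

/-- the number `2 ^ rank · # Ш[2]` of the curve `E_D` -/
noncomputable def size (a b D : ℤ) : ℕ :=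
  2 ^ rank (a * D) (b * D ^ 2) * Nat.card (ShaTwo (a * D) (b * D ^ 2))

/-- the curves: `b` is not a square, `b (a² - 4 b)` is a square different from `0` -/
def Exceptional (a b : ℤ) : Prop :=
  ¬ IsSquare b ∧ a ^ 2 - 4 * b ≠ 0 ∧ IsSquare (b * (a ^ 2 - 4 * b))

/-- the group of the square classes of a field -/
abbrev SquareClasses (K : Type) [Field K] : Type := Kˣ ⧸ (powMonoidHom 2 : Kˣ →* Kˣ).range

/-- the square classes of the abscissae of the points over `K` of `y² = x³ + A x² + B x` -/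
def image (K : Type) [Field K] (A B : ℤ) : Set (SquareClasses K) :=
  {c | ∃ (x : Kˣ) (y : K), y ^ 2 = (x : K) ^ 3 + (A : K) * (x : K) ^ 2 + (B : K) * (x : K) ∧
    c = QuotientGroup.mk x}

open Classical in
/-- the number of these classes over `ℚ_p` -/
noncomputable def imageCard (A B : ℤ) (p : ℕ) : ℕ :=
  if h : p.Prime then (haveI : Fact p.Prime := ⟨h⟩; Nat.card (image ℚ_[p] A B)) else 1

/-- the primes which divide `2 b (a² - 4 b)` -/
def bad (a b : ℤ) : Finset ℕ := (2 * (b * (a ^ 2 - 4 * b))).natAbs.primeFactors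

/-- the product over the primes of `S` and the infinite place of `1/2` times the number of the classes -/
noncomputable def ratio (S : Finset ℕ) (A B : ℤ) : ℝ :=
  (((∏ p ∈ S, imageCard A B p) * Nat.card (image ℝ A B) : ℕ) : ℝ) / 2 ^ (S.card + 1)

/-- the constant of the curve `E_D` -/
noncomputable def τ (a b D : ℤ) : ℝ := ratio (bad a b) (a * D) (b * D ^ 2)

/-- the constant of the curve `E_D'` -/
noncomputable def τ' (a b D : ℤ) : ℝ := ratio (bad a b) (-2 * a * D) ((a ^ 2 - 4 * b) * D ^ 2)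

/-- `D` and `D₀` have the same sign and the same square classes at the bad primes -/
def Same (a b D₀ D : ℤ) : Prop := 0 < D₀ * D ∧
  ∀ (p : ℕ) [Fact p.Prime], (p : ℤ) ∣ 2 * (b * (a ^ 2 - 4 * b)) → IsSquare ((D₀ * D : ℤ) : ℚ_[p])

/-- the squarefree integer in the square class of `M d`, for `M` and `d` squarefree -/
def tw (M : ℤ) (d : ℕ) : ℤ := M * d / (Int.gcd M d : ℤ) ^ 2

open Classical in
/-- the divisors `d` of `D` for which the squarefree part of `M d` is in the local class of `D₀` -/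
noncomputable def Class (a b M D₀ : ℤ) (D : ℕ) : Finset ℕ :=
  D.divisors.filter fun d => Same a b D₀ (tw M d)

/-- the law of the dimensions -/
noncomputable def law (t : ℝ) (r : ℕ) : ℝ :=
  t ^ r / (∏ i ∈ range r, ((2 : ℝ) ^ r - 2 ^ i)) * ∏' i : ℕ, (1 - t / 2 ^ (r + i + 1))

open Classical in
/-- `𝒮` consists of squarefree positive integers and contains almost all of them -/
def AlmostAll (𝒮 : Set ℕ) : Prop := (∀ D ∈ 𝒮, Squarefree D) ∧
  Tendsto (fun X : ℕ => (((Icc 1 X).filter fun D => D ∈ 𝒮).card : ℝ) /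
    ((Icc 1 X).filter fun D => Squarefree D).card) atTop (nhds 1)

/-- the curve `y² = x³ + A x² + B x` over the field `K` -/
def EK (K : Type) [Field K] (A B : ℤ) : WeierstrassCurve K :=
  { a₁ := 0, a₂ := (A : K), a₃ := 0, a₄ := (B : K), a₆ := 0 }

open Classical in
/-- the rank of the group of the `K`-rational points of `y² = x³ + A x² + B x` -/
noncomputable def rankK (K : Type) [Field K] (A B : ℤ) : ℕ :=
  Module.finrank ℤ (EK K A B).toAffine.Point

/-- `K` is generated over `ℚ` by the square roots of the primes which divide `D` -/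
def IsRoots (K : Type) [Field K] [NumberField K] (D : ℕ) : Prop :=
  ∃ x : ℕ → K, (∀ p ∈ D.primeFactors, x p ^ 2 = (p : K)) ∧
    IntermediateField.adjoin ℚ (x '' (D.primeFactors : Set ℕ)) = ⊤

/-- the mean of the roots of the sizes, and the tail -/
def Sizes (a b M : ℤ) (C : ℝ) (D : ℕ) : Prop :=
  ∑ d ∈ D.divisors, Real.sqrt (size a b (tw M d)) ≤ C * D.divisors.card ∧
  ∀ y : ℝ, 0 < y → (Nat.card {d : ℕ // d ∈ D.divisors ∧ y ≤ (size a b (tw M d) : ℝ)} : ℝ) ≤
    C * D.divisors.card / Real.sqrt y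

/-- the rank over the field generated by the square roots of the primes which divide `D` -/
def Fields (a b M : ℤ) (C : ℝ) (D : ℕ) : Prop :=
  ∀ (K : Type) [Field K] [NumberField K], IsRoots K D →
    Module.finrank ℚ K = 2 ^ D.primeFactors.card ∧
      (rankK K (a * M) (b * M ^ 2) : ℝ) ≤ C * Module.finrank ℚ K

/-- the moment of order `k` of the ranks of the twists -/
def Moment (a b M : ℤ) (k : ℕ) (C : ℝ) (D : ℕ) : Prop :=
  ∑ d ∈ D.divisors, (rank (a * tw M d) (b * tw M d ^ 2) : ℝ) ^ k ≤ C * D.divisors.card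

/-- the tail of the sizes beyond `4 ^ R` -/
def Tail (a b M : ℤ) (R : ℕ) (C : ℝ) (D : ℕ) : Prop :=
  (Nat.card {d : ℕ // d ∈ D.divisors ∧ 4 ^ R < size a b (tw M d)} : ℝ) ≤
    C ^ (R + 1) / 2 ^ ((R + 1) * R) * D.divisors.card

/-- the bounds in the examples -/
def Explicit (a b M : ℤ) (D : ℕ) : Prop :=
  Sizes a b M 2.01 D ∧ Fields a b M 1.75 D

/-- the examples -/
def Examples (𝒮 : Set ℕ) : Prop :=
  (Exceptional 4 2 ∧ ∀ M : ℤ, Squarefree M → M < 0 → M % 2 = 1 →
    ∀ᶠ D : ℕ in atTop, D ∈ 𝒮 → D % 2 = 1 → Explicit 4 2 M D) ∧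
  (Exceptional 5 5 ∧ ∀ M : ℤ, Squarefree M → M < 0 → M % 4 = 2 →
    ∀ᶠ D : ℕ in atTop, D ∈ 𝒮 → D % 2 = 1 → Explicit 5 5 M D)

/-! ### The proof -/

open scoped Classical

/-- the data -/
def cd {a b : ℤ} (h : Exceptional a b) : Q44.BN.Cd := ⟨a, b, h.1, h.2.1, h.2.2⟩

lemma e1 (a D : ℤ) : -2 * a * D = -2 * (a * D) := by ring

lemma e2 (a b D : ℤ) : (a ^ 2 - 4 * b) * D ^ 2 = (a * D) ^ 2 - 4 * (b * D ^ 2) := by ring

lemma nS'_eq {a b : ℤ} (h : Exceptional a b) (D : ℤ) : (cd h).nS' D = (SelPhi a b D).ncard := by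
  unfold SelPhi
  rw [e1, e2]
  rfl

lemma nS_eq {a b : ℤ} (h : Exceptional a b) (D : ℤ) : (cd h).nS D = (SelDual a b D).ncard := rfl

lemma rs_eq {a b : ℤ} (h : Exceptional a b) (D : ℤ) : (cd h).rs D = size a b D := rfl

lemma tau_eq {a b : ℤ} (h : Exceptional a b) (D : ℤ) : (cd h).tau D = τ a b D := rfl

lemma tau_eq' {a b : ℤ} (h : Exceptional a b) (D : ℤ) : (cd h).tau' D = τ' a b D := by
  unfold τ'
  rw [e1, e2]
  rfl

lemma law_eq {t : ℝ} (ht : 0 ≤ t) (r : ℕ) : Q44.BC.lam t r = law t r := Q44.BN.lam_tprod ht r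

lemma law_fun {t : ℝ} (ht : 0 ≤ t) : Q44.BC.lam t = law t := funext (law_eq ht)

lemma taus {a b : ℤ} (h : Exceptional a b) {D₀ : ℤ} (hD : Squarefree D₀) :
    (0 < τ a b D₀ ∧ 0 < τ' a b D₀) ∧ Q44.BC.lam ((cd h).tau D₀) = law (τ a b D₀) ∧
      Q44.BC.lam ((cd h).tau' D₀) = law (τ' a b D₀) := by
  obtain ⟨⟨t1, t2⟩, -⟩ := (cd h).facts hD
  rw [tau_eq h] at t1 ⊢
  rw [tau_eq' h] at t2 ⊢
  exact ⟨⟨t1, t2⟩, funext fun r => law_eq t1.le r, funext fun r => law_eq t2.le r⟩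

lemma tw_eq {M : ℤ} (hM : M ≠ 0) (d : ℕ) : tw M d = _root_.Q155.NB.twz M d := by
  have hg : (Int.gcd M d : ℤ) ^ 2 ≠ 0 := by
    have : Int.gcd M d ≠ 0 := fun h => hM (Int.gcd_eq_zero_iff.1 h).1
    exact pow_ne_zero 2 (by exact_mod_cast this)
  unfold tw
  rw [_root_.Q155.NB.twz_mul, Int.mul_ediv_cancel _ hg]

lemma class_eq {a b : ℤ} (h : Exceptional a b) {M : ℤ} (hM : M ≠ 0) (D₀ : ℤ) (D : ℕ) :
    Class a b M D₀ D = _root_.Q155.NB.cls (cd h) M D₀ D := by
  unfold Class _root_.Q155.NB.cls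
  refine Finset.filter_congr fun d _ => ?_
  rw [tw_eq hM]
  exact Iff.rfl

/-- the set of almost all the squarefree integers -/
lemma almost_all : ∃ 𝒮 : Set ℕ, AlmostAll 𝒮 ∧ _root_.Q155.NB.LS (fun D => D ∈ 𝒮) := by
  obtain ⟨S, h1, h2, h3⟩ := _root_.Q155.NB.ex_S _root_.Q155.NB.prt
  refine ⟨{D | S D}, ⟨h1, h2.congr fun X => ?_⟩, h3⟩
  unfold _root_.Q155.NL.cnt _root_.Q155.NL.cs
  refine congrArg₂ (fun x y : ℕ => (x : ℝ) / (y : ℝ)) ?_ ?_
  · exact Q44.BO.cardS (fun D => Iff.rfl) _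
  · exact Q44.BO.cardS (fun D => Iff.rfl) _

lemma bad_42 : bad 4 2 = {2} := by
  unfold bad
  have : (2 * (2 * (4 ^ 2 - 4 * 2)) : ℤ).natAbs = 2 ^ 5 := by norm_num
  rw [this, Nat.primeFactors_prime_pow (by norm_num) Nat.prime_two]

lemma bad_55 : bad 5 5 = {2, 5} := by
  unfold bad
  have : (2 * (5 * (5 ^ 2 - 4 * 5)) : ℤ).natAbs = 2 * 5 ^ 2 := by norm_num
  rw [this, Nat.primeFactors_mul (by norm_num) (by norm_num),
    Nat.primeFactors_prime_pow (by norm_num) (by norm_num : Nat.Prime 5),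
    Nat.Prime.primeFactors Nat.prime_two]
  rfl

lemma exc_42 : Exceptional 4 2 := by
  refine ⟨?_, by norm_num, ⟨4, by norm_num⟩⟩
  rintro ⟨r, hr⟩
  have h1 : r < 2 := by nlinarith
  have h2 : -2 < r := by nlinarith
  interval_cases r <;> norm_num at hr

lemma exc_55 : Exceptional 5 5 := by
  refine ⟨?_, by norm_num, ⟨5, by norm_num⟩⟩
  rintro ⟨r, hr⟩
  have h1 : r < 3 := by nlinarith
  have h2 : -3 < r := by nlinarith
  interval_cases r <;> norm_num at hr

lemma tau_42 {D : ℤ} (h1 : D < 0) (h2 : D % 2 = 1) : τ 4 2 D = 1 ∧ τ' 4 2 D = 1 := by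
  obtain ⟨k1, k2⟩ := Q44.BN.ex1 h2 h1
  unfold τ τ'
  rw [bad_42]
  refine ⟨k1, ?_⟩
  have g1 : -2 * 4 * D = -2 * (4 * D) := by ring
  have g2 : (4 ^ 2 - 4 * 2) * D ^ 2 = (4 * D) ^ 2 - 4 * (2 * D ^ 2) := by ring
  rw [g1, g2]
  exact k2

lemma tau_55 {D : ℤ} (h1 : D < 0) (h2 : D % 4 = 2) : τ 5 5 D = 1 ∧ τ' 5 5 D = 1 := by
  obtain ⟨k1, k2⟩ := Q44.BN.ex2 h2 h1
  unfold τ τ'
  rw [bad_55]
  refine ⟨k1, ?_⟩
  have g1 : -2 * 5 * D = -2 * (5 * D) := by ring
  have g2 : (5 ^ 2 - 4 * 5) * D ^ 2 = (5 * D) ^ 2 - 4 * (5 * D ^ 2) := by ring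
  rw [g1, g2]
  exact k2

/-- the twists by odd integers -/
lemma tw_facts {M : ℤ} (hM : Squarefree M) (h0 : M < 0) {d : ℕ} (hd : Squarefree d)
    (hodd : d % 2 = 1) : tw M d < 0 ∧ (M % 2 = 1 → tw M d % 2 = 1) ∧ (M % 4 = 2 → tw M d % 4 = 2) := by
  rw [tw_eq hM.ne_zero]
  have e1 := _root_.Q155.NB.twz_mul M d
  set t := _root_.Q155.NB.twz M d with ht
  set g : ℤ := (Int.gcd M d : ℤ) with hg
  have hd0 : (0 : ℤ) < d := by exact_mod_cast Nat.pos_of_ne_zero hd.ne_zero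
  have hgd : g ∣ (d : ℤ) := Int.gcd_dvd_right M d
  obtain ⟨c, hc⟩ := hgd
  have hdo : (d : ℤ) % 2 = 1 := by omega
  have hgo : g % 2 = 1 := by
    rcases Int.emod_two_eq_zero_or_one g with h | h
    · exfalso
      have h1 : (2 : ℤ) ∣ d := by
        rw [hc]
        exact Dvd.dvd.mul_right (Int.dvd_of_emod_eq_zero h) c
      omega
    · exact h
  have hg0 : g ≠ 0 := by
    rintro h
    rw [h] at hgo
    norm_num at hgo
  have hg4 : g ^ 2 % 4 = 1 := by
    rcases (by omega : g % 4 = 1 ∨ g % 4 = 3) with h | h <;> rw [sq, Int.mul_emod, h] <;> norm_num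
  have hg2 : 0 < g ^ 2 := by positivity
  refine ⟨?_, fun h => ?_, fun h => ?_⟩
  · have h1 : M * d < 0 := mul_neg_of_neg_of_pos h0 hd0
    rw [e1] at h1
    by_contra h2
    exact absurd (mul_nonneg (not_lt.1 h2) hg2.le) (not_le.2 h1)
  · have h1 : (M * d) % 2 = 1 := by rw [Int.mul_emod, h, hdo]; norm_num
    rw [e1] at h1
    rcases Int.emod_two_eq_zero_or_one t with h2 | h2
    · rw [Int.mul_emod, h2] at h1
      norm_num at h1
    · exact h2
  · have h1 : (M * d) % 4 = 2 := by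
      rcases (by omega : (d : ℤ) % 4 = 1 ∨ (d : ℤ) % 4 = 3) with h2 | h2 <;>
        rw [Int.mul_emod, h, h2] <;> norm_num
    rw [e1, Int.mul_emod, hg4, mul_one, Int.emod_emod_of_dvd _ (dvd_refl 4)] at h1
    exact h1

lemma odd_dvd {D d : ℕ} (hD : D % 2 = 1) (h : d ∣ D) : d % 2 = 1 := by
  obtain ⟨c, rfl⟩ := h
  rcases Nat.mod_two_eq_zero_or_one d with h1 | h1
  · rw [Nat.mul_mod, h1] at hD
    simp at hD
  · exact h1

lemma bal_42 {M : ℤ} (hM : Squarefree M) (h0 : M < 0) (h1 : M % 2 = 1) {D : ℕ} (hD : Squarefree D)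
    (h2 : D % 2 = 1) : _root_.Q155.NB.Bal (cd exc_42) M D := by
  intro d hd
  have hdd := Nat.dvd_of_mem_divisors hd
  obtain ⟨k1, k2, -⟩ := tw_facts hM h0 (hD.squarefree_of_dvd hdd) (odd_dvd h2 hdd)
  rw [tau_eq, tau_eq', ← tw_eq hM.ne_zero]
  exact tau_42 k1 (k2 h1)

lemma bal_55 {M : ℤ} (hM : Squarefree M) (h0 : M < 0) (h1 : M % 4 = 2) {D : ℕ} (hD : Squarefree D)
    (h2 : D % 2 = 1) : _root_.Q155.NB.Bal (cd exc_55) M D := by
  intro d hd
  have hdd := Nat.dvd_of_mem_divisors hd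
  obtain ⟨k1, -, k2⟩ := tw_facts hM h0 (hD.squarefree_of_dvd hdd) (odd_dvd h2 hdd)
  rw [tau_eq, tau_eq', ← tw_eq hM.ne_zero]
  exact tau_55 k1 (k2 h1)

lemma rk_eq {a b : ℤ} (h : Exceptional a b) (D : ℤ) :
    Q44.BO.rk (cd h) D = rank (a * D) (b * D ^ 2) := rfl

lemma rankK_eq (K : Type) [Field K] (A B : ℤ) : rankK K A B = _root_.Q155.NB.rkF K A B := rfl

lemma card_sub (P : ℕ → Prop) (D : ℕ) : Nat.card {d : ℕ // d ∈ D.divisors ∧ P d} =
    (D.divisors.filter P).card := by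
  rw [Nat.card_congr (Equiv.subtypeEquivRight (q := fun d => d ∈ D.divisors.filter P)
    fun d => (Finset.mem_filter).symm), Nat.card_eq_fintype_card, Fintype.card_coe]

/-- the sizes and the tail -/
lemma sizes {a b : ℤ} (h : Exceptional a b) {M : ℤ} (hM : Squarefree M) {C : ℝ} {D : ℕ}
    (h1 : ∑ d ∈ D.divisors, Real.sqrt ((cd h).rs (_root_.Q155.NB.twz M d)) ≤ C * D.divisors.card) :
    Sizes a b M C D := by
  have h2 : ∑ d ∈ D.divisors, Real.sqrt (size a b (tw M d)) ≤ C * D.divisors.card := by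
    refine le_trans (le_of_eq (Finset.sum_congr rfl fun d _ => ?_)) h1
    rw [tw_eq hM.ne_zero, rs_eq]
  refine ⟨h2, fun y hy => le_trans (le_of_eq ?_) (_root_.Q155.NB.tail_of h2 hy)⟩
  rw [card_sub]

/-- the tail beyond `4 ^ R` -/
lemma tails {a b : ℤ} (h : Exceptional a b) {M : ℤ} (hM : Squarefree M) {R : ℕ} {C : ℝ} {D : ℕ}
    (h1 : ((D.divisors.filter fun d => 4 ^ R < (cd h).rs (_root_.Q155.NB.twz M d)).card : ℝ) ≤
      C ^ (R + 1) / 2 ^ ((R + 1) * R) * D.divisors.card) : Tail a b M R C D := by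
  unfold Tail
  rw [card_sub]
  refine le_trans (le_of_eq ?_) h1
  refine congrArg Nat.cast (Q44.BO.cardS (fun d => ?_) _)
  rw [tw_eq hM.ne_zero, rs_eq]

/-- the rank over the field -/
lemma fields {a b : ℤ} (h : Exceptional a b) {M : ℤ} (hM : Squarefree M) {C : ℝ} {D : ℕ}
    (hD : Squarefree D) (h1 : (∑ d ∈ D.divisors, (Q44.BO.rk (cd h) (_root_.Q155.NB.twz M d) : ℝ)) ≤
      C * D.divisors.card) : Fields a b M C D := by
  rintro K _ _ ⟨x, hx, hK⟩
  have h2 := _root_.Q155.NB.mq_deg hD K x hx hK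
  have h3 := _root_.Q155.NB.mq_rank (cd h) hM hD K x hx hK
  refine ⟨by rw [h2, _root_.Q155.NB.card_div hD], ?_⟩
  rw [h2]
  refine le_trans ?_ h1
  rw [rankK_eq]
  exact_mod_cast h3

lemma moments {a b : ℤ} (h : Exceptional a b) {M : ℤ} (hM : Squarefree M) {k : ℕ} {C : ℝ} {D : ℕ}
    (h1 : (∑ d ∈ D.divisors, (Q44.BO.rk (cd h) (_root_.Q155.NB.twz M d) : ℝ) ^ k) ≤
      C * D.divisors.card) : Moment a b M k C D := by
  unfold Moment
  refine le_trans (le_of_eq (Finset.sum_congr rfl fun d _ => ?_)) h1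
  rw [tw_eq hM.ne_zero, rk_eq]

/-- the ranks and the logarithms of the sizes -/
lemma rk_log {a b : ℤ} (h : Exceptional a b) {N : ℤ} (hN : Squarefree N) :
    (Q44.BO.rk (cd h) N : ℝ) ≤ Real.logb 2 ((cd h).rs N) := by
  have k2 := Q44.BO.two_rk_le (cd h) hN
  have k3 := (cd h).rs_pos hN
  have k3' : (0 : ℝ) < ((cd h).rs N : ℝ) := by exact_mod_cast k3
  rw [Real.le_logb_iff_rpow_le (by norm_num) k3', Real.rpow_natCast]
  exact_mod_cast k2

/-- the balanced case -/
lemma explicit {a b : ℤ} (h : Exceptional a b) {𝒮 : Set ℕ} (hs : AlmostAll 𝒮)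
    (hL : _root_.Q155.NB.LS (fun D => D ∈ 𝒮)) {M : ℤ} (hM : Squarefree M) :
    ∀ᶠ D : ℕ in atTop, D ∈ 𝒮 → _root_.Q155.NB.Bal (cd h) M D → Explicit a b M D := by
  have h1 := _root_.Q155.NB.bal_all (e := cd h) _root_.Q155.NB.prt (fun D hD => hs.1 D hD) hL hM
    (ε := 0.006) (by norm_num)
  filter_upwards [h1] with D hD hDS hB
  have hDs := hs.1 D hDS
  obtain ⟨-, k1, k2, -⟩ := hD hDS hB
  have k3 := _root_.Q155.NB.mn1_le _root_.Q155.NB.prt
  have k4 : ∑ d ∈ D.divisors, (Q44.BO.rk (cd h) (_root_.Q155.NB.twz M d) : ℝ) ≤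
      1.75 * D.divisors.card := by
    refine le_trans (Finset.sum_le_sum fun d hd => rk_log h (_root_.Q155.NB.twz_sqf hM
      (hDs.squarefree_of_dvd (Nat.dvd_of_mem_divisors hd)))) (k1.trans
      (mul_le_mul_of_nonneg_right ?_ (Nat.cast_nonneg _)))
    norm_num at k3 ⊢
    linarith
  refine ⟨sizes h hM (k2.trans (mul_le_mul_of_nonneg_right (by norm_num) (Nat.cast_nonneg _))),
    fields h hM hDs k4⟩

/-- **The ranks over the fields generated by the square roots of the primes which divide `D`.** -/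
theorem result : ∃ 𝒮 : Set ℕ, AlmostAll 𝒮 ∧ (∀ a b : ℤ, Exceptional a b →
    (∃ C : ℝ, 0 < C ∧ ∀ M : ℤ, Squarefree M → ∀ᶠ D : ℕ in atTop, D ∈ 𝒮 →
      Sizes a b M C D ∧ Fields a b M C D) ∧
    (∃ C : ℝ, 0 < C ∧ ∀ M : ℤ, Squarefree M → ∀ R : ℕ, ∀ᶠ D : ℕ in atTop, D ∈ 𝒮 →
      Tail a b M R C D) ∧
    ∀ k : ℕ, ∃ C : ℝ, 0 < C ∧ ∀ M : ℤ, Squarefree M → ∀ᶠ D : ℕ in atTop, D ∈ 𝒮 →
      Moment a b M k C D) ∧ Examples 𝒮 := by
  obtain ⟨𝒮, hs, hL⟩ := almost_all
  refine ⟨𝒮, hs, fun a b h => ?_, ⟨exc_42, fun M hM h0 h1 => ?_⟩, exc_55, fun M hM h0 h1 => ?_⟩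
  · obtain ⟨C, hC, h1⟩ := _root_.Q155.NB.sqrt_all _root_.Q155.NB.prt (fun D hD => hs.1 D hD) hL (cd h)
    obtain ⟨K₁, hK₁, k1⟩ := _root_.Q155.NB.pow_le_sqrt 1
    refine ⟨⟨max C (K₁ * C), lt_max_of_lt_left hC, fun M hM => ?_⟩, ?_, fun k => ?_⟩
    · filter_upwards [h1 M hM] with D hD hDS
      have hDs := hs.1 D hDS
      have h2 := hD hDS
      have h3 := _root_.Q155.NB.mom_of (e := cd h) k1 hK₁ hM hDs h2
      simp only [pow_one] at h3
      refine ⟨sizes h hM (h2.trans (mul_le_mul_of_nonneg_right (le_max_left _ _)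
        (Nat.cast_nonneg _))), fields h hM hDs (h3.trans (mul_le_mul_of_nonneg_right
          (le_max_right _ _) (Nat.cast_nonneg _)))⟩
    · obtain ⟨C₁, hC₁, h2⟩ := _root_.Q155.NB.tail_div _root_.Q155.NB.prt (fun D hD => hs.1 D hD) hL
        (cd h)
      refine ⟨C₁, hC₁, fun M hM R => ?_⟩
      filter_upwards [h2 M hM R] with D hD hDS
      exact tails h hM (hD hDS)
    · obtain ⟨K, hK, k2⟩ := _root_.Q155.NB.pow_le_sqrt k
      refine ⟨K * C, mul_pos hK hC, fun M hM => ?_⟩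
      filter_upwards [h1 M hM] with D hD hDS
      exact moments h hM (_root_.Q155.NB.mom_of (e := cd h) k2 hK hM (hs.1 D hDS) (hD hDS))
  · filter_upwards [explicit exc_42 hs hL hM] with D hD hDS h2
    exact hD hDS (bal_42 hM h0 h1 (hs.1 D hDS) h2)
  · filter_upwards [explicit exc_55 hs hL hM] with D hD hDS h2
    exact hD hDS (bal_55 hM h0 h1 (hs.1 D hDS) h2)

end Pool.Agent.Results.MP_157626_nt.RanksOverRootsOfDivisors
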